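import Pool.Agent.KIL.StmtsB

/-!
# AND2B, block KIL, row RCM (helper10): kills
-/

set_option autoImplicit false

open MeasureTheory ProbabilityTheory

open scoped BigOperators Matrix NNReal ENNReal

noncomputable section

namespace Pool.Agent.KIL.H10

open Pool.Agent.ANP (Cfg)
open Pool.Agent.KIL

theorem rcm : RcmStmt := by
  intro X _ _ Y T₀ T P K D Gm kp hR hD hs hrun
  refine ⟨fun V => ?_, fun ζ => ?_, fun x y => ?_⟩
  · refine ⟨?_, ?_, ?_, hR.mb⟩
    · intro x hx
      rcases Finset.mem_union.mp hx with h | h
      · exact hR.sub h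
      · exact (Finset.mem_sdiff.mp (hD h)).1
    · intro x hx
      rw [Finset.mem_union, not_or] at hx
      obtain ⟨h1, h2, h3⟩ := hR.off x hx.1
      refine ⟨?_, ?_, ?_⟩
      · simp only [Cfg.kl, if_neg hx.2]
        exact h1
      · simp only [Cfg.kl, if_neg hx.2]
        exact h2
      · rw [← (hrun.en V).2, hrun.con P.s hs.le le_rfl x hx.2]
        exact h3
    · intro x hx
      by_cases hxD : x ∈ D
      · simp only [Cfg.kl, if_pos hxD]
      · simp only [Cfg.kl, if_neg hxD]
        rcases Finset.mem_union.mp hx with h | h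
        · exact hR.on x h
        · exact absurd h hxD
  · have h1 : (fun x => if x ∈ D then T.V x + ζ x else T.V x) =
        fun x => if x ∈ D then T.V x + ext D (fun c => ζ c) x else T.V x := by
      funext x
      by_cases hx : x ∈ D
      · simp [ext, hx]
      · simp [hx]
    simp only [Cfg.kl]
    rw [h1]
  · rw [continuous_iff_continuousAt]
    intro V
    have h1 : ContinuousAt (fun r => Gm r x y) (P.s, V) :=
      ((hrun.jets (P.s, V) hs.le le_rfl).hG x y).sm.continuousAt
    exact ContinuousAt.comp (f := fun V : D → ℝ => ((P.s, V) : ℝ × (D → ℝ))) (x := V) h1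
      (by fun_prop)

end Pool.Agent.KIL.H10
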